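import Pool.Agent.Helper52.AT.Defs

/-!
# Block AT-POW: powers of the endomorphism
-/

set_option autoImplicit false

namespace Pool.Agent.Helper52.AT

open Polynomial

/-- `appT` as a polynomial in `T` -/
theorem appT_eq_aeval {O : Type} [CommRing O] [Algebra ℂ O] (T : O →ₐ[ℂ] O) (L : List ℂ) (a : O) :
    appT T L a = (aeval (T.toLinearMap : Module.End ℂ O) ((L.map (fun μ => X - C μ)).prod)) a := by
  induction L generalizing a with
  | nil => simp [appT]
  | cons μ L ih =>
    have h : appT T (μ :: L) a = appT T L (T a - μ • a) := rfl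
    rw [h, ih, List.map_cons, List.prod_cons, mul_comm, map_mul, Module.End.mul_apply]
    congr 1
    simp [Algebra.algebraMap_eq_smul_one]

theorem toLinearMap_pow' {O : Type} [CommRing O] [Algebra ℂ O] (T : O →ₐ[ℂ] O) (M : ℕ) :
    ((T ^ M).toLinearMap : Module.End ℂ O) = (T.toLinearMap : Module.End ℂ O) ^ M := by
  induction M with
  | zero => rfl
  | succ n ih => rw [pow_succ, pow_succ, ← ih]; rfl

theorem aeval_mem_stable {O : Type} [CommRing O] [Algebra ℂ O] (T : O →ₐ[ℂ] O) (U : Ideal O)
    (hU : ∀ a ∈ U, T a ∈ U) (p : ℂ[X]) (a : O) (ha : a ∈ U) :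
    (aeval (T.toLinearMap : Module.End ℂ O) p) a ∈ U := by
  have hpow : ∀ n : ℕ, ((T.toLinearMap : Module.End ℂ O) ^ n) a ∈ U := by
    intro n
    induction n with
    | zero => simpa using ha
    | succ n ih =>
      rw [pow_succ', Module.End.mul_apply]
      exact hU _ ih
  induction p using Polynomial.induction_on' with
  | add p q hp hq => rw [map_add, LinearMap.add_apply]; exact U.add_mem hp hq
  | monomial n c =>
    rw [aeval_monomial, Module.End.mul_apply, Module.algebraMap_end_apply, Algebra.smul_def]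
    exact U.mul_mem_left _ (hpow n)

theorem appT_pow {O : Type} [CommRing O] [Algebra ℂ O] (T : O →ₐ[ℂ] O) (U : Ideal O)
    (hU : ∀ a ∈ U, T a ∈ U) (M : ℕ) (L : List ℂ) (a : O) (ha : appT T L a ∈ U) :
    appT (T ^ M) (L.map (fun μ => μ ^ M)) a ∈ U := by
  rw [appT_eq_aeval] at ha ⊢
  have hdvd : (L.map (fun μ => X - C μ)).prod ∣
      ((L.map (fun μ => X - C (μ ^ M))).prod).comp (X ^ M : ℂ[X]) := by
    clear ha
    induction L with
    | nil => simp
    | cons μ L ih =>
      rw [List.map_cons, List.prod_cons, List.map_cons, List.prod_cons, mul_comp]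
      refine mul_dvd_mul ?_ ih
      rw [sub_comp, X_comp, C_comp, C_pow]
      exact sub_dvd_pow_sub_pow _ _ _
  have e : (aeval ((T ^ M).toLinearMap : Module.End ℂ O)
      (((L.map (fun μ => μ ^ M)).map (fun μ => X - C μ)).prod) : Module.End ℂ O) =
      aeval (T.toLinearMap : Module.End ℂ O)
        (((L.map (fun μ => X - C (μ ^ M))).prod).comp (X ^ M : ℂ[X])) := by
    rw [aeval_comp, toLinearMap_pow', map_pow, aeval_X, List.map_map]
    rfl
  rw [e]
  obtain ⟨q, hq⟩ := hdvd
  rw [hq, mul_comm, map_mul, Module.End.mul_apply]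
  exact aeval_mem_stable T U hU q _ ha

end Pool.Agent.Helper52.AT
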